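import Pool.Agent.Helper76.DE.StN

/-!
# Project PRD, module Pc: comparison of two precisions
-/

set_option autoImplicit false

noncomputable section

namespace Pool.Agent.Helper42.PRD

open Pool.Agent.Helper76.ND Pool.Agent.Helper76.DE Finset

/-- partial sums of `ns` -/
def NS (e n K M : ℕ) : ℝ := ∑ s ∈ range K, ns e n s M

theorem NS_le (hQs : StQs) (hSp : StSp) (m0 m K M : ℕ) (h : m0 ≤ m) :
    NS m0 m K M ≤ NS m0 m0 K M := by
  unfold NS
  have h1 : ∀ s ∈ range K, ns m0 m s M =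
      ∑ s' ∈ range K, (if s' ≤ s then ns m0 m0 s' M * qs (m - m0) (s - s') else 0) := by
    intro s hs
    rw [mem_range] at hs
    rw [hSp m0 m0 m s M (le_refl _) h, ← sum_filter]
    apply sum_congr _ fun _ _ => rfl
    ext x
    rw [mem_range, mem_filter, mem_range]
    omega
  rw [sum_congr rfl h1, sum_comm]
  refine sum_le_sum fun s' hs' => ?_
  rw [← sum_filter, ← mul_sum]
  have h2 : ∑ s ∈ (range K).filter (fun s => s' ≤ s), qs (m - m0) (s - s') ≤ 1 := by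
    calc ∑ s ∈ (range K).filter (fun s => s' ≤ s), qs (m - m0) (s - s')
        = ∑ j ∈ ((range K).filter (fun s => s' ≤ s)).image (fun s => s - s'), qs (m - m0) j := by
          rw [sum_image]
          intro a ha b hb hab
          rw [mem_coe, mem_filter] at ha hb
          have h3 : a - s' = b - s' := hab
          omega
      _ ≤ ∑ j ∈ range K, qs (m - m0) j := by
          refine sum_le_sum_of_subset_of_nonneg ?_ fun j _ _ => qs_nonneg _ _
          intro j hj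
          rw [mem_image] at hj
          obtain ⟨s, hs, rfl⟩ := hj
          rw [mem_filter, mem_range] at hs
          rw [mem_range]
          omega
      _ ≤ 1 := hQs.1 _ _
  calc ns m0 m0 s' M * ∑ s ∈ (range K).filter (fun s => s' ≤ s), qs (m - m0) (s - s')
      ≤ ns m0 m0 s' M * 1 := mul_le_mul_of_nonneg_left h2 (ns_nonneg _ _ _ _)
    _ = ns m0 m0 s' M := mul_one _

theorem NS_sum (hNs : StNs) (e n K : ℕ) :
    ∑ M ∈ range (3 ^ e), NS e n K M = ∑ s ∈ range K, qs n s := by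
  unfold NS
  rw [sum_comm]
  exact sum_congr rfl fun s _ => hNs.2.2.2.1 e n s

theorem eight_le (m0 : ℕ) (h : 1 ≤ m0) : (1 : ℝ) / 8 ^ m0 ≤ (m0 : ℝ) ^ (-(1 / 200) : ℝ) := by
  have h0 : (1 : ℝ) ≤ m0 := by exact_mod_cast h
  have h1 : (m0 : ℝ) ≤ 8 ^ m0 := by
    have : m0 < 8 ^ m0 := Nat.lt_pow_self (by norm_num)
    exact_mod_cast this.le
  calc (1 : ℝ) / 8 ^ m0 ≤ 1 / m0 := one_div_le_one_div_of_le (by linarith) h1
    _ = (m0 : ℝ) ^ (-1 : ℝ) := by rw [Real.rpow_neg_one, one_div]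
    _ ≤ (m0 : ℝ) ^ (-(1 / 200) : ℝ) := Real.rpow_le_rpow_of_exponent_le h0 (by norm_num)

theorem hPc (hCh : StCh) (hNs : StNs) (hPe : StPe) (hSp : StSp) (hQs : StQs) : StPc := by
  obtain ⟨C, hC, hCh⟩ := hCh
  refine ⟨C + 2, by linarith, fun m0 m h1 h2 => ?_⟩
  have hA := hCh m0 m (8 * m + 1) h1 h2
  have hpow : (0 : ℝ) < 3 ^ (m - m0) := by positivity
  have hA' : ∑ M ∈ range (3 ^ m), |pim m M - NS m0 m (8 * m + 1) M / 3 ^ (m - m0)| ≤
      C * (m0 : ℝ) ^ (-(1 / 200) : ℝ) := by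
    refine le_trans ?_ hA
    rw [sum_comm]
    refine sum_le_sum fun M _ => ?_
    unfold pim NS
    rw [sum_div, ← sum_sub_distrib]
    exact abs_sum_le_sum_abs _ _
  have hsplit : pim m0 = fun M => NS m0 m0 (8 * m0 + 1) M := rfl
  have hNSper : ∀ n K M, NS m0 n K (M + 3 ^ m0) = NS m0 n K M := by
    intro n K M
    unfold NS
    exact sum_congr rfl fun s _ => hNs.1 m0 n s M
  -- B
  have hB : ∑ M ∈ range (3 ^ m), |NS m0 m (8 * m + 1) M / 3 ^ (m - m0) - pim m0 M / 3 ^ (m - m0)| =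
      ∑ M ∈ range (3 ^ m0), |NS m0 m (8 * m + 1) M - pim m0 M| := by
    have h3 : 3 ^ m = 3 ^ m0 * 3 ^ (m - m0) := by rw [← pow_add]; congr 1; omega
    have h4 := hPe.1 (fun M => |NS m0 m (8 * m + 1) M - pim m0 M|) (3 ^ m0) (3 ^ (m - m0))
      (fun M => by rw [hNSper, hNs.2.2.1 m0 M])
    rw [h3]
    have h5 : ∀ M ∈ range (3 ^ m0 * 3 ^ (m - m0)),
        |NS m0 m (8 * m + 1) M / 3 ^ (m - m0) - pim m0 M / 3 ^ (m - m0)| =
        |NS m0 m (8 * m + 1) M - pim m0 M| / 3 ^ (m - m0) := by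
      intro M _
      rw [← sub_div, abs_div, abs_of_pos hpow]
    rw [sum_congr rfl h5, ← sum_div, h4]
    push_cast
    field_simp
  -- D, E
  have hD : ∑ M ∈ range (3 ^ m0), |NS m0 m (8 * m + 1) M - NS m0 m0 (8 * m + 1) M| ≤ 1 / 8 ^ m := by
    have h3 : ∀ M ∈ range (3 ^ m0), |NS m0 m (8 * m + 1) M - NS m0 m0 (8 * m + 1) M| =
        NS m0 m0 (8 * m + 1) M - NS m0 m (8 * m + 1) M := by
      intro M _
      rw [abs_sub_comm, abs_of_nonneg]
      linarith [NS_le hQs hSp m0 m (8 * m + 1) M h2]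
    rw [sum_congr rfl h3, sum_sub_distrib, NS_sum hNs, NS_sum hNs]
    linarith [hQs.1 m0 (8 * m + 1), hQs.2.2.2 m]
  have hE : ∑ M ∈ range (3 ^ m0), |NS m0 m0 (8 * m + 1) M - pim m0 M| ≤ 1 / 8 ^ m0 := by
    have h3 : ∀ M ∈ range (3 ^ m0), |NS m0 m0 (8 * m + 1) M - pim m0 M| =
        ∑ s ∈ Ico (8 * m0 + 1) (8 * m + 1), ns m0 m0 s M := by
      intro M _
      have h4 : NS m0 m0 (8 * m + 1) M - pim m0 M =
          ∑ s ∈ Ico (8 * m0 + 1) (8 * m + 1), ns m0 m0 s M := by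
        unfold NS pim
        rw [sum_Ico_eq_sub _ (by omega)]
      rw [h4, abs_of_nonneg (sum_nonneg fun s _ => ns_nonneg _ _ _ _)]
    rw [sum_congr rfl h3, sum_comm]
    calc ∑ s ∈ Ico (8 * m0 + 1) (8 * m + 1), ∑ M ∈ range (3 ^ m0), ns m0 m0 s M
        = ∑ s ∈ Ico (8 * m0 + 1) (8 * m + 1), qs m0 s :=
          sum_congr rfl fun s _ => hNs.2.2.2.1 m0 m0 s
      _ ≤ 1 / 8 ^ m0 := hQs.2.2.1 m0 _
  have h8 : (1 : ℝ) / 8 ^ m ≤ 1 / 8 ^ m0 :=
    one_div_le_one_div_of_le (by positivity) (pow_le_pow_right₀ (by norm_num) h2)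
  have h9 := eight_le m0 h1
  calc ∑ M ∈ range (3 ^ m), |pim m M - pim m0 M / 3 ^ (m - m0)|
      ≤ ∑ M ∈ range (3 ^ m), (|pim m M - NS m0 m (8 * m + 1) M / 3 ^ (m - m0)| +
          |NS m0 m (8 * m + 1) M / 3 ^ (m - m0) - pim m0 M / 3 ^ (m - m0)|) :=
        sum_le_sum fun M _ => abs_sub_le _ _ _
    _ ≤ C * (m0 : ℝ) ^ (-(1 / 200) : ℝ) +
          ∑ M ∈ range (3 ^ m0), |NS m0 m (8 * m + 1) M - pim m0 M| := by
        rw [sum_add_distrib, hB]
        linarith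
    _ ≤ C * (m0 : ℝ) ^ (-(1 / 200) : ℝ) +
          ∑ M ∈ range (3 ^ m0), (|NS m0 m (8 * m + 1) M - NS m0 m0 (8 * m + 1) M| +
            |NS m0 m0 (8 * m + 1) M - pim m0 M|) := by
        have := sum_le_sum fun M (_ : M ∈ range (3 ^ m0)) =>
          abs_sub_le (NS m0 m (8 * m + 1) M) (NS m0 m0 (8 * m + 1) M) (pim m0 M)
        linarith
    _ ≤ (C + 2) * (m0 : ℝ) ^ (-(1 / 200) : ℝ) := by
        rw [sum_add_distrib]
        linarith

end Pool.Agent.Helper42.PRD
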