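import Pool.Agent.Helper76.DE.StN

/-!
# Project PRD, module Pd: doubling
-/

set_option autoImplicit false

noncomputable section

namespace Pool.Agent.Helper42.PRD

open Pool.Agent.Helper76.ND Pool.Agent.Helper76.DE Finset

theorem hd_rep (j : ℕ) (l : List Bool) : hd (List.replicate j false ++ l) = hd l := by
  induction j with
  | zero => simp
  | succ j ih => rw [List.replicate_succ, List.cons_append, hd_false, ih]

theorem ns_double (m j s M : ℕ) (hm : 1 ≤ m) : ns m m s (2 ^ j * M) ≤ 2 ^ j * ns m m (s + j) M := by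
  unfold ns
  have h1 : ((W s).filter (fun l => hd l = m ∧ te l = true ∧
      3 ^ m ∣ 2 ^ s * (2 ^ j * M) + cc l)).card ≤
      ((W (s + j)).filter (fun l => hd l = m ∧ te l = true ∧
        3 ^ m ∣ 2 ^ (s + j) * M + cc l)).card := by
    refine card_le_card_of_injOn (fun l => List.replicate j false ++ l) ?_ ?_
    · intro l hl
      rw [mem_coe, mem_filter, mem_W] at hl
      obtain ⟨h0, h1, h2, h3⟩ := hl
      have hne : l ≠ [] := by
        rintro rfl
        rw [hd_nil] at h1
        omega
      rw [mem_coe, mem_filter, mem_W]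
      refine ⟨?_, ?_, ?_, ?_⟩
      · rw [List.length_append, List.length_replicate, h0, add_comm]
      · rw [hd_rep, h1]
      · rw [te_append _ _ hne, h2]
      · rw [cc_rep, pow_add, mul_assoc]; exact h3
    · intro a _ b _ h
      exact List.append_cancel_left h
  have h2 : (2 : ℝ) ^ j * ((((W (s + j)).filter (fun l => hd l = m ∧ te l = true ∧
        3 ^ m ∣ 2 ^ (s + j) * M + cc l)).card : ℝ) / 2 ^ (s + j)) =
      (((W (s + j)).filter (fun l => hd l = m ∧ te l = true ∧
        3 ^ m ∣ 2 ^ (s + j) * M + cc l)).card : ℝ) / 2 ^ s := by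
    generalize (((W (s + j)).filter (fun l => hd l = m ∧ te l = true ∧
        3 ^ m ∣ 2 ^ (s + j) * M + cc l)).card : ℝ) = c
    rw [pow_add]
    field_simp
  rw [h2]
  exact div_le_div_of_nonneg_right (by exact_mod_cast h1) (by positivity)

theorem hPd : StPd := by
  intro m j M hm hj
  unfold pim
  calc ∑ s ∈ range (8 * m + 1 - j), ns m m s (2 ^ j * M)
      ≤ ∑ s ∈ range (8 * m + 1 - j), 2 ^ j * ns m m (s + j) M :=
        sum_le_sum fun s _ => ns_double m j s M hm
    _ = 2 ^ j * ∑ s ∈ range (8 * m + 1 - j), ns m m (s + j) M := by rw [mul_sum]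
    _ ≤ 2 ^ j * ∑ s ∈ range (8 * m + 1), ns m m s M := by
        refine mul_le_mul_of_nonneg_left ?_ (by positivity)
        have h1 : ∑ s ∈ range (8 * m + 1 - j), ns m m (s + j) M =
            ∑ s ∈ (range (8 * m + 1 - j)).image (fun s => s + j), ns m m s M := by
          rw [sum_image]
          intro a _ b _ h
          exact Nat.add_right_cancel h
        rw [h1]
        refine sum_le_sum_of_subset_of_nonneg ?_ fun s _ _ => ns_nonneg _ _ _ _
        intro s hs
        rw [mem_image] at hs
        obtain ⟨r, hr, rfl⟩ := hs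
        rw [mem_range] at hr ⊢
        omega

end Pool.Agent.Helper42.PRD
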