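import Pool.Agent.Helper76.DE.StN

/-!
# Project PRD, module Pi: predecessor indicators
-/

set_option autoImplicit false

noncomputable section

namespace Pool.Agent.Helper42.PRD

open Pool.Agent.Helper76.ND Pool.Agent.Helper76.DE Finset

theorem reach_step (F : ℕ → ℕ) (a N : ℕ) (h : a < N) :
    (∃ k, F^[k] (F N) = a) ↔ ∃ k, F^[k] N = a := by
  constructor
  · rintro ⟨k, hk⟩
    exact ⟨k + 1, by rw [Function.iterate_succ_apply]; exact hk⟩
  · rintro ⟨k, hk⟩
    cases k with
    | zero => rw [Function.iterate_zero_apply] at hk; omega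
    | succ k => exact ⟨k, by rw [Function.iterate_succ_apply] at hk; exact hk⟩

theorem S_eq_T (x : ℕ) : S x = T x ∨ S x = T (T x) := by
  by_cases h : x % 2 = 0
  · left
    unfold S T
    rw [if_pos h, if_pos h]
  · right
    have h1 : T x = 3 * x - 1 := by unfold T; rw [if_neg h]
    have h2 : (3 * x - 1) % 2 = 0 := by omega
    rw [h1]
    unfold S T
    rw [if_neg h, if_pos h2]

theorem S_iter_T (k N : ℕ) : ∃ j, T^[j] N = S^[k] N := by
  induction k with
  | zero => exact ⟨0, rfl⟩
  | succ k ih =>
    obtain ⟨j, hj⟩ := ih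
    rw [Function.iterate_succ_apply']
    rcases S_eq_T (S^[k] N) with h | h
    · exact ⟨j + 1, by rw [Function.iterate_succ_apply', hj, h]⟩
    · exact ⟨j + 2, by
        rw [Function.iterate_succ_apply', Function.iterate_succ_apply', hj, h]⟩

theorem hPi : StPi := by
  classical
  refine ⟨?_, ?_, ?_⟩
  · intro a N h
    unfold pS
    simp only [reach_step S a N h]
  · intro a N
    unfold pS pT
    by_cases h : ∃ k, S^[k] N = a
    · obtain ⟨k, hk⟩ := h
      obtain ⟨j, hj⟩ := S_iter_T k N
      rw [if_pos ⟨k, hk⟩, if_pos ⟨j, hj.trans hk⟩]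
    · rw [if_neg h]
      split_ifs
      · norm_num
      · exact le_refl _
  · intro a N h
    unfold pT
    simp only [reach_step T a N h]

end Pool.Agent.Helper42.PRD
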