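import Pool.Agent.Helper76.DE.StN

/-!
# Project PRD, module Pp: multiplication by a power of two is a bijection modulo `3 ^ m`
-/

set_option autoImplicit false

noncomputable section

namespace Pool.Agent.Helper42.PRD

open Pool.Agent.Helper76.ND Pool.Agent.Helper76.DE Finset

theorem per_mod (P : ℕ) (g : ℕ → ℝ) (hg : ∀ M, g (M + P) = g M) (x : ℕ) : g (x % P) = g x := by
  have h : ∀ k y : ℕ, g (y + P * k) = g y := by
    intro k
    induction k with
    | zero => intro y; simp
    | succ k ih => intro y; rw [Nat.mul_succ, ← add_assoc, hg, ih]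
  conv_rhs => rw [← Nat.mod_add_div x P]
  exact (h _ _).symm

theorem image_mul (m c : ℕ) (hc : c.Coprime (3 ^ m)) :
    (range (3 ^ m)).image (fun r => c * r % 3 ^ m) = range (3 ^ m) := by
  have hpos : 0 < 3 ^ m := by positivity
  apply eq_of_subset_of_card_le
  · intro x hx
    rw [mem_image] at hx
    obtain ⟨r, _, rfl⟩ := hx
    exact mem_range.2 (Nat.mod_lt _ hpos)
  · rw [card_image_of_injOn]
    intro x hx y hy h
    have hx' := mem_range.1 hx
    have hy' := mem_range.1 hy
    have h1 : c * x ≡ c * y [MOD 3 ^ m] := h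
    have h2 : x ≡ y [MOD 3 ^ m] := Nat.ModEq.cancel_left_of_coprime (by
      rw [Nat.gcd_comm]; exact hc) h1
    exact h2.eq_of_lt_of_lt hx' hy'

theorem sum_mul (m c : ℕ) (hc : c.Coprime (3 ^ m)) (g : ℕ → ℝ) (hg : ∀ M, g (M + 3 ^ m) = g M) :
    ∑ r ∈ range (3 ^ m), g (c * r) = ∑ r ∈ range (3 ^ m), g r := by
  conv_rhs => rw [← image_mul m c hc]
  rw [sum_image]
  · exact sum_congr rfl fun r _ => (per_mod _ g hg _).symm
  · intro x hx y hy h
    have hx' := mem_range.1 hx
    have hy' := mem_range.1 hy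
    have h1 : c * x ≡ c * y [MOD 3 ^ m] := h
    have h2 : x ≡ y [MOD 3 ^ m] := Nat.ModEq.cancel_left_of_coprime (by
      rw [Nat.gcd_comm]; exact hc) h1
    exact h2.eq_of_lt_of_lt hx' hy'

theorem hPp : StPp := fun m j g hg =>
  sum_mul m (2 ^ j) (Nat.Coprime.pow _ _ (by norm_num)) g hg

end Pool.Agent.Helper42.PRD
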