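import Pool.Agent.Helper76.DE.StN
import Pool.Agent.Helper42.PRD.M_Pp

/-!
# Project PRD, module Pr2: the powers of two run through the units modulo `3 ^ m`
-/

set_option autoImplicit false

noncomputable section

namespace Pool.Agent.Helper42.PRD

open Pool.Agent.Helper76.ND Pool.Agent.Helper76.DE Finset

theorem ord_dvd (m d : ℕ) (hm : 1 ≤ m) (h : 3 ^ m ∣ 2 ^ d - 1) : 2 * 3 ^ (m - 1) ∣ d := by
  have h3 : 3 ∣ 2 ^ d - 1 := (dvd_pow_self 3 (by omega)).trans h
  have h1 : 1 ≤ 2 ^ d := Nat.one_le_two_pow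
  have heven : 2 ∣ d := by
    by_contra hd
    have h5 : d = 2 * (d / 2) + 1 := by omega
    have h6 : 2 ^ d % 3 = 2 := by
      rw [h5, pow_add, pow_mul, Nat.mul_mod, Nat.pow_mod]
      norm_num
    omega
  obtain ⟨e, rfl⟩ := heven
  refine Nat.mul_dvd_mul_left 2 ?_
  rcases Nat.eq_zero_or_pos e with he | he
  · rw [he]; exact dvd_zero _
  · haveI : Fact (Nat.Prime 3) := ⟨Nat.prime_three⟩
    have h7 : padicValNat 3 (4 ^ e - 1 ^ e) = padicValNat 3 (4 - 1) + padicValNat 3 e :=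
      padicValNat.pow_sub_pow (by decide) (by norm_num) (by norm_num) (by norm_num) he.ne'
    rw [one_pow] at h7
    have h8 : padicValNat 3 (4 - 1) = 1 := by
      norm_num
    have h9 : 4 ^ e - 1 ≠ 0 := by
      have : 4 ^ 1 ≤ 4 ^ e := Nat.pow_le_pow_right (by norm_num) he
      omega
    rw [pow_mul] at h
    have h10 := (padicValNat_dvd_iff_le h9).1 (show 3 ^ m ∣ 4 ^ e - 1 by simpa using h)
    exact (padicValNat_dvd_iff_le he.ne').2 (by omega)

theorem inj_aux (m r i j : ℕ) (hm : 1 ≤ m) (hr : ¬ 3 ∣ r) (hij : i ≤ j) (hj : j < 2 * 3 ^ (m - 1))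
    (h : 2 ^ i * r ≡ 2 ^ j * r [MOD 3 ^ m]) : i = j := by
  have hco : (3 ^ m).gcd r = 1 := by
    have : Nat.Coprime 3 r := (Nat.Prime.coprime_iff_not_dvd Nat.prime_three).2 hr
    exact this.pow_left m
  have h1 : 2 ^ i ≡ 2 ^ j [MOD 3 ^ m] := Nat.ModEq.cancel_right_of_coprime hco h
  have h2 : 2 ^ j = 2 ^ i * 2 ^ (j - i) := by rw [← pow_add]; congr 1; omega
  have h3 : 2 ^ i * 1 ≡ 2 ^ i * 2 ^ (j - i) [MOD 3 ^ m] := by rw [mul_one, ← h2]; exact h1
  have hco2 : (3 ^ m).gcd (2 ^ i) = 1 := by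
    have : Nat.Coprime 3 2 := by norm_num
    exact (this.pow_left m).pow_right i
  have h4 : 1 ≡ 2 ^ (j - i) [MOD 3 ^ m] := Nat.ModEq.cancel_left_of_coprime hco2 h3
  have h5 : 3 ^ m ∣ 2 ^ (j - i) - 1 := (Nat.modEq_iff_dvd' Nat.one_le_two_pow).1 h4
  have h6 := ord_dvd m (j - i) hm h5
  by_contra hne
  have h7 := Nat.le_of_dvd (by omega) h6
  omega

theorem inj_two (m r : ℕ) (hm : 1 ≤ m) (hr : ¬ 3 ∣ r) :
    Set.InjOn (fun j => 2 ^ j * r % 3 ^ m) (range (2 * 3 ^ (m - 1)) : Finset ℕ) := by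
  intro i hi j hj h
  rw [mem_coe, mem_range] at hi hj
  have h' : 2 ^ i * r ≡ 2 ^ j * r [MOD 3 ^ m] := h
  rcases le_total i j with hij | hij
  · exact inj_aux m r i j hm hr hij hj h'
  · exact (inj_aux m r j i hm hr hij hi h'.symm).symm

theorem hPr2 : StPr2 := by
  intro m r g hm hr hg
  have himg : (range (2 * 3 ^ (m - 1))).image (fun j => 2 ^ j * r % 3 ^ m) =
      (range (3 ^ m)).filter (fun u => ¬ 3 ∣ u) := by
    apply eq_of_subset_of_card_le
    · intro x hx
      rw [mem_image] at hx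
      obtain ⟨j, _, rfl⟩ := hx
      rw [mem_filter, mem_range]
      refine ⟨Nat.mod_lt _ (by positivity), ?_⟩
      intro h
      have h1 : 3 ∣ 2 ^ j * r := by
        have h2 : 3 ∣ 3 ^ m := dvd_pow_self 3 (by omega)
        exact (Nat.dvd_mod_iff h2).1 h
      rcases Nat.prime_three.dvd_mul.1 h1 with h3 | h3
      · have := Nat.prime_three.dvd_of_dvd_pow h3
        omega
      · exact hr h3
    · rw [card_image_of_injOn (inj_two m r hm hr), card_range]
      have h1 : (range (3 ^ m)).filter (fun u => ¬ 3 ∣ u) =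
          (range (3 ^ m)).filter (fun u => (3 ^ m).Coprime u) := by
        refine filter_congr fun u _ => ?_
        rw [Nat.coprime_pow_left_iff (by omega), Nat.Prime.coprime_iff_not_dvd Nat.prime_three]
      rw [h1, ← Nat.totient_eq_card_coprime, Nat.totient_prime_pow Nat.prime_three (by omega)]
      omega
  rw [← himg, sum_image (inj_two m r hm hr)]
  exact sum_congr rfl fun j _ => (per_mod _ g hg _).symm

end Pool.Agent.Helper42.PRD
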