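import Pool.Agent.Helper76.DE.StN

/-!
# Project PRD, module Pz: multiples of three, total mass of the limit law
-/

set_option autoImplicit false

noncomputable section

namespace Pool.Agent.Helper42.PRD

open Pool.Agent.Helper76.ND Pool.Agent.Helper76.DE Finset

theorem cc_not_three (l : List Bool) (h : 1 ≤ hd l) : ¬ 3 ∣ cc l := by
  induction l with
  | nil => simp at h
  | cons x l ih =>
    cases x with
    | false =>
      rw [cc_false]
      exact ih (by simpa using h)
    | true =>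
      rw [cc_true]
      intro h3
      have h4 : 3 ∣ 2 ^ l.length := (Nat.dvd_add_left (dvd_mul_right 3 (cc l))).1 h3
      have h5 : 3 ∣ 2 := Nat.prime_three.dvd_of_dvd_pow h4
      omega

theorem ns_zero (m s M : ℕ) (hm : 1 ≤ m) (hM : 3 ∣ M) : ns m m s M = 0 := by
  unfold ns
  have h : (W s).filter (fun l => hd l = m ∧ te l = true ∧ 3 ^ m ∣ 2 ^ s * M + cc l) = ∅ := by
    rw [filter_eq_empty_iff]
    rintro l _ ⟨h1, _, h2⟩
    have h3 : 3 ∣ 2 ^ s * M + cc l := (dvd_pow_self 3 (by omega)).trans h2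
    have h4 : 3 ∣ cc l := (Nat.dvd_add_right (hM.mul_left _)).1 h3
    exact cc_not_three l (by omega) h4
  rw [h]
  simp

theorem hPz (hNs : StNs) (hQs : StQs) : StPz := by
  have h1 : ∀ m M : ℕ, 1 ≤ m → 3 ∣ M → pim m M = 0 := by
    intro m M hm hM
    unfold pim
    exact sum_eq_zero fun s _ => ns_zero m s M hm hM
  refine ⟨h1, fun m hm => ?_⟩
  have h2 : ∑ M ∈ (range (3 ^ m)).filter (fun M => ¬ 3 ∣ M), pim m M =
      ∑ M ∈ range (3 ^ m), pim m M := by
    rw [sum_filter]
    refine sum_congr rfl fun M _ => ?_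
    by_cases h : 3 ∣ M
    · rw [if_neg (not_not.2 h), h1 m M hm h]
    · rw [if_pos h]
  have h3 : ∑ M ∈ range (3 ^ m), pim m M = ∑ s ∈ range (8 * m + 1), qs m s := by
    unfold pim
    rw [sum_comm]
    exact sum_congr rfl fun s _ => hNs.2.2.2.1 m m s
  rw [h2, h3]
  exact hQs.2.2.2 m

end Pool.Agent.Helper42.PRD
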