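import Pool.Agent.Helper76.DE.StN

/-!
# Project PRD, module Vb: second moment of the number of visits over words
-/

set_option autoImplicit false

noncomputable section

namespace Pool.Agent.Helper42.PRD

open Pool.Agent.Helper76.ND Pool.Agent.Helper76.DE Finset

theorem sq_sum_le (x : ℕ → ℝ) (hx : ∀ t, 0 ≤ x t) (n : ℕ) :
    (∑ t ∈ range n, x t) ^ 2 ≤ 2 * ∑ t ∈ range n, x t * ∑ t' ∈ Ico t n, x t' := by
  induction n with
  | zero => simp
  | succ n ih =>
    rw [sum_range_succ, sum_range_succ (fun t => x t * ∑ t' ∈ Ico t (n + 1), x t')]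
    have h1 : ∀ t ∈ range n, x t * ∑ t' ∈ Ico t (n + 1), x t' =
        x t * ∑ t' ∈ Ico t n, x t' + x t * x n := by
      intro t ht
      rw [mem_range] at ht
      rw [sum_Ico_succ_top ht.le, mul_add]
    rw [sum_congr rfl h1, sum_add_distrib, ← sum_mul]
    have h2 : ∑ t' ∈ Ico n (n + 1), x t' = x n := by
      rw [sum_Ico_succ_top (le_refl n)]; simp
    rw [h2]
    have h3 := hx n
    nlinarith [mul_nonneg h3 h3]

theorem sum_W_hd (t : ℕ) (G : ℕ → ℝ) :
    ∑ c ∈ W t, G (hd c) = 2 ^ t * ∑ k ∈ range (t + 1), q t k * G k := by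
  have h1 : ∑ c ∈ W t, G (hd c) = ∑ k ∈ range (t + 1), ∑ c ∈ (W t).filter (fun c => hd c = k),
      G (hd c) := by
    rw [sum_fiberwise_of_maps_to]
    intro c hc
    rw [mem_W] at hc
    rw [mem_range]
    have := hd_le c
    omega
  rw [h1, mul_sum]
  refine sum_congr rfl fun k _ => ?_
  have h2 : ∑ c ∈ (W t).filter (fun c => hd c = k), G (hd c) =
      ∑ c ∈ (W t).filter (fun c => hd c = k), G k := by
    refine sum_congr rfl fun c hc => ?_
    rw [(mem_filter.1 hc).2]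
  rw [h2, sum_const, card_hd, nsmul_eq_mul]
  unfold q
  field_simp

theorem ind_nonneg (u : ℝ) : 0 ≤ ind u := by unfold ind; split_ifs <;> norm_num

theorem ind_le (u : ℝ) : ind u ≤ 1 := by unfold ind; split_ifs <;> norm_num

theorem drop_app (a b : List Bool) (t i : ℕ) (hb : b.length = t) (hi : i ≤ a.length) :
    (a ++ b).drop (a.length - i) = a.drop (a.length - i) ++ b := by
  rw [List.drop_append]
  have : a.length - i - a.length = 0 := by omega
  rw [this, List.drop_zero]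

theorem first (hVa : StVa) (n : ℕ) (w : ℝ) (hw : 0 < w) : ∑ a ∈ W n, Uv w a ≤ 100 * 2 ^ n := by
  have h1 : ∑ a ∈ W n, Uv w a =
      ∑ i ∈ range (n + 1), ∑ a ∈ W n, ind (2 ^ i * w / 3 ^ hd (a.drop (n - i))) := by
    rw [sum_comm]
    refine sum_congr rfl fun a ha => ?_
    unfold Uv
    rw [mem_W] at ha
    rw [ha]
  have h2 : ∀ i ∈ range (n + 1), ∑ a ∈ W n, ind (2 ^ i * w / 3 ^ hd (a.drop (n - i))) =
      2 ^ n * ∑ k ∈ range (i + 1), q i k * ind (2 ^ i * w / 3 ^ k) := by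
    intro i hi
    rw [mem_range] at hi
    have h3 : ∑ a ∈ W ((n - i) + i), ind (2 ^ i * w / 3 ^ hd (a.drop (n - i))) =
        ∑ a ∈ W (n - i), ∑ c ∈ W i, ind (2 ^ i * w / 3 ^ hd c) := by
      rw [sum_W_append]
      refine sum_congr rfl fun a ha => sum_congr rfl fun c _ => ?_
      rw [mem_W] at ha
      rw [← ha, List.drop_left]
    rw [show (n - i) + i = n by omega] at h3
    rw [h3, sum_const, card_W, nsmul_eq_mul, sum_W_hd i (fun k => ind (2 ^ i * w / 3 ^ k)),
      ← mul_assoc]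
    congr 1
    push_cast
    rw [← pow_add]
    congr 1
    omega
  rw [h1, sum_congr rfl h2, ← mul_sum, mul_comm]
  exact mul_le_mul_of_nonneg_right (hVa (n + 1) w hw) (by positivity)

theorem hVb (hVa : StVa) : StVb := by
  intro T v hv
  have h1 : ∀ l ∈ W T, Uv v l ^ 2 ≤ 2 * ∑ t ∈ range (T + 1),
      ind (2 ^ t * v / 3 ^ hd (l.drop (T - t))) *
        ∑ t' ∈ Ico t (T + 1), ind (2 ^ t' * v / 3 ^ hd (l.drop (T - t'))) := by
    intro l hl
    rw [mem_W] at hl
    unfold Uv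
    rw [hl]
    exact sq_sum_le (fun t => ind (2 ^ t * v / 3 ^ hd (l.drop (T - t))))
      (fun t => ind_nonneg _) (T + 1)
  refine (sum_le_sum h1).trans ?_
  rw [← mul_sum, sum_comm]
  have h2 : ∀ t ∈ range (T + 1), ∑ l ∈ W T, ind (2 ^ t * v / 3 ^ hd (l.drop (T - t))) *
        ∑ t' ∈ Ico t (T + 1), ind (2 ^ t' * v / 3 ^ hd (l.drop (T - t'))) ≤
      100 * 2 ^ T * ∑ k ∈ range (t + 1), q t k * ind (2 ^ t * v / 3 ^ k) := by
    intro t ht
    rw [mem_range] at ht
    have h3 : ∑ l ∈ W ((T - t) + t), ind (2 ^ t * v / 3 ^ hd (l.drop (T - t))) *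
        ∑ t' ∈ Ico t (T + 1), ind (2 ^ t' * v / 3 ^ hd (l.drop (T - t'))) =
        ∑ b ∈ W t, ind (2 ^ t * v / 3 ^ hd b) *
          ∑ a ∈ W (T - t), Uv (2 ^ t * v / 3 ^ hd b) a := by
      rw [sum_W_append, sum_comm]
      refine sum_congr rfl fun b hb => ?_
      rw [mul_sum]
      refine sum_congr rfl fun a ha => ?_
      rw [mem_W] at ha hb
      have h4 : (a ++ b).drop (T - t) = b := by rw [← ha, List.drop_left]
      rw [h4]
      congr 1
      unfold Uv
      rw [ha]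
      have h5 : ∑ t' ∈ Ico t (T + 1), ind (2 ^ t' * v / 3 ^ hd ((a ++ b).drop (T - t'))) =
          ∑ i ∈ range (T + 1 - t), ind (2 ^ (t + i) * v / 3 ^ hd ((a ++ b).drop (T - (t + i)))) :=
        sum_Ico_eq_sum_range _ _ _
      rw [h5, show T + 1 - t = T - t + 1 by omega]
      refine sum_congr rfl fun i hi => ?_
      rw [mem_range] at hi
      have h6 : (a ++ b).drop (T - (t + i)) = a.drop (T - t - i) ++ b := by
        have := drop_app a b t i hb (by omega)
        rw [ha] at this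
        rw [show T - (t + i) = T - t - i by omega]
        exact this
      rw [h6, hd_append]
      congr 1
      rw [pow_add, pow_add]
      field_simp
    rw [show (T - t) + t = T by omega] at h3
    rw [h3]
    calc ∑ b ∈ W t, ind (2 ^ t * v / 3 ^ hd b) * ∑ a ∈ W (T - t), Uv (2 ^ t * v / 3 ^ hd b) a
        ≤ ∑ b ∈ W t, ind (2 ^ t * v / 3 ^ hd b) * (100 * 2 ^ (T - t)) :=
          sum_le_sum fun b _ => mul_le_mul_of_nonneg_left
            (first hVa (T - t) _ (by positivity)) (ind_nonneg _)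
      _ = 100 * 2 ^ T * ∑ k ∈ range (t + 1), q t k * ind (2 ^ t * v / 3 ^ k) := by
          rw [← sum_mul, sum_W_hd t (fun k => ind (2 ^ t * v / 3 ^ k))]
          have h7 : (2 : ℝ) ^ T = 2 ^ t * 2 ^ (T - t) := by rw [← pow_add]; congr 1; omega
          rw [h7]
          ring
  calc 2 * ∑ t ∈ range (T + 1), ∑ l ∈ W T, ind (2 ^ t * v / 3 ^ hd (l.drop (T - t))) *
        ∑ t' ∈ Ico t (T + 1), ind (2 ^ t' * v / 3 ^ hd (l.drop (T - t')))
      ≤ 2 * ∑ t ∈ range (T + 1), 100 * 2 ^ T * ∑ k ∈ range (t + 1),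
          q t k * ind (2 ^ t * v / 3 ^ k) :=
        mul_le_mul_of_nonneg_left (sum_le_sum h2) (by norm_num)
    _ = 200 * 2 ^ T * ∑ t ∈ range (T + 1), ∑ k ∈ range (t + 1),
          q t k * ind (2 ^ t * v / 3 ^ k) := by
        rw [← mul_sum]; ring
    _ ≤ 200 * 2 ^ T * 100 := mul_le_mul_of_nonneg_left (hVa (T + 1) v hv) (by positivity)
    _ = 20000 * 2 ^ T := by ring

end Pool.Agent.Helper42.PRD
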