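import Pool.Agent.Helper76.DE.StN

/-!
# Project PRD, module Yj: the points of the average
-/

set_option autoImplicit false

noncomputable section

namespace Pool.Agent.Helper42.PRD

open Pool.Agent.Helper76.ND Pool.Agent.Helper76.DE Finset

theorem rho_pos : 0 < rho := by
  unfold rho
  have := Real.log_pos (show (1 : ℝ) < 4 / 3 by norm_num)
  linarith

theorem hYj : StYj := by
  intro z x hz hx
  have hx0 : 0 < x := lt_of_lt_of_le (Real.exp_pos _) hx
  have hL : 200 ≤ Real.log x := (Real.le_log_iff_exp_le hx0).2 hx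
  have hJ : (Jn x : ℝ) ≤ Real.log x / 100 := Nat.floor_le (by linarith)
  refine ⟨?_, ?_, hJ⟩
  · intro j hj
    have hjJ : (j : ℝ) ≤ Real.log x / 100 := le_trans (by exact_mod_cast hj.le) hJ
    have hz0 : 0 < z := by linarith
    have h1 : yj z x j / z = x ^ (105 / 100 : ℝ) * Real.exp j := by
      unfold yj; field_simp
    have hpos : 0 < x ^ (105 / 100 : ℝ) := Real.rpow_pos_of_pos hx0 _
    have h2 : x ^ (105 / 100 : ℝ) ≤ yj z x j / z := by
      rw [h1]
      have : 1 ≤ Real.exp (j : ℝ) := Real.one_le_exp (Nat.cast_nonneg j)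
      nlinarith
    have h3 : yj z x j / z ≤ x ^ (106 / 100 : ℝ) := by
      rw [h1, show (106 / 100 : ℝ) = 105 / 100 + 1 / 100 by norm_num, Real.rpow_add hx0]
      refine mul_le_mul_of_nonneg_left ?_ hpos.le
      rw [Real.rpow_def_of_pos hx0]
      refine Real.exp_le_exp.2 ?_
      linarith
    refine ⟨⟨hz, h2, h3⟩, ?_⟩
    unfold tz t1
    refine Nat.floor_le_floor ?_
    refine div_le_div_of_nonneg_right ?_ rho_pos.le
    have h4 := Real.log_le_log (lt_of_lt_of_le hpos h2) h3
    linarith
  · have h5 : Real.log x / 100 - 1 < (Jn x : ℝ) := Nat.sub_one_lt_floor _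
    linarith

end Pool.Agent.Helper42.PRD
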